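import Pool.Agent.V11287.SA.BC

/-!
Averages and tails along sequences with `v_(n+1) ≥ v_n^(1+κ)`, for almost every `α`.
-/

set_option autoImplicit false

namespace Pool.Agent.V11287.SA

open MeasureTheory Set Filter Finset Topology
open scoped ENNReal

/-- averages: if the means of `2 ^ g` over short intervals are at most `C < R`, then the averages of
`g` are at most `log₂ R` -/
theorem avg (g : ℤ → ℝ) {κ C R : ℝ} (hκ : 0 < κ) (hC : 0 ≤ C) (hR : C < R)
    (L : ℕ) (hL : 2 * (1 + κ) ≤ L * κ)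
    (hF : ∀ (N : ℤ) (M : ℕ), 1 ≤ M → |N| ≤ (M : ℤ) ^ L →
      ∑ t ∈ Finset.Ioc N (N + M), (2 : ℝ) ^ (g t) ≤ C * M)
    (v : ℕ → ℝ) (hv0 : ∀ n, 1 < v n) (hv : ∀ n, v n ^ (1 + κ) ≤ v (n + 1)) :
    ∀ᵐ α : ℝ, ∀ᶠ N : ℕ in atTop, ∑ n ∈ range N, g ⌊α * v n⌋ ≤ Real.logb 2 R * N := by
  have h := bc (fun t => (2 : ℝ) ^ (g t)) (fun t => Real.rpow_nonneg (by norm_num) _) hκ hC hR L hL
    hF v hv0 hv
  filter_upwards [h] with α hα
  filter_upwards [hα] with N hN
  have h1 : ∏ n ∈ range N, (2 : ℝ) ^ (g ⌊α * v n⌋) =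
      (2 : ℝ) ^ (∑ n ∈ range N, g ⌊α * v n⌋) := by
    rw [Real.rpow_sum_of_pos (by norm_num)]
  rw [h1] at hN
  have h2 := Real.logb_le_logb_of_le (b := 2) (by norm_num) (by positivity) hN
  rw [Real.logb_rpow (by norm_num) (by norm_num), Real.logb_pow] at h2
  linarith

/-- tails: if `B` has at most `ρ M` elements in the short intervals of length `M`, then the upper
density of the `n` with `⌊α v_n⌋ ∈ B` is at most `2 ρ` -/
theorem tail (B : ℤ → Prop) [DecidablePred B] {κ ρ : ℝ} (hκ : 0 < κ) (hρ : 0 < ρ)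
    (L : ℕ) (hL : 2 * (1 + κ) ≤ L * κ)
    (hB : ∀ (N : ℤ) (M : ℕ), 1 ≤ M → |N| ≤ (M : ℤ) ^ L →
      (((Finset.Ioc N (N + M)).filter B).card : ℝ) ≤ ρ * M)
    (v : ℕ → ℝ) (hv0 : ∀ n, 1 < v n) (hv : ∀ n, v n ^ (1 + κ) ≤ v (n + 1)) :
    ∀ᵐ α : ℝ, ∀ᶠ N : ℕ in atTop,
      (((range N).filter (fun n => B ⌊α * v n⌋)).card : ℝ) ≤ 2 * ρ * N := by
  have hR : 1 + ρ < (2 : ℝ) ^ (2 * ρ) := by
    rw [Real.rpow_def_of_pos (by norm_num)]
    have h1 := Real.add_one_lt_exp (show Real.log 2 * (2 * ρ) ≠ 0 from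
      mul_ne_zero (Real.log_pos (by norm_num)).ne' (by positivity))
    have h2 := Real.log_two_gt_d9
    nlinarith
  have h := avg (fun t => if B t then (1 : ℝ) else 0) hκ (by positivity) hR L hL
    (by
      intro N M hM hN
      have h1 : ∀ t, (2 : ℝ) ^ (if B t then (1 : ℝ) else 0) = 1 + (if B t then (1 : ℝ) else 0) := by
        intro t
        split_ifs <;> norm_num
      rw [sum_congr rfl (fun t _ => h1 t), sum_add_distrib, ← sum_filter, sum_const, sum_const,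
        Int.card_Ioc, nsmul_eq_mul, nsmul_eq_mul, mul_one, mul_one, add_sub_cancel_left,
        Int.toNat_natCast]
      have := hB N M hM hN
      linarith) v hv0 hv
  filter_upwards [h] with α hα
  filter_upwards [hα] with N hN
  rw [Real.logb_rpow (by norm_num) (by norm_num)] at hN
  rw [← sum_filter, sum_const, nsmul_eq_mul, mul_one] at hN
  exact hN

/-- a large exponent -/
lemma exists_L {κ : ℝ} (hκ : 0 < κ) : ∃ L : ℕ, 2 * (1 + κ) ≤ L * κ := by
  obtain ⟨L, hL⟩ := exists_nat_ge (2 * (1 + κ) / κ)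
  exact ⟨L, by rwa [div_le_iff₀ hκ] at hL⟩

end Pool.Agent.V11287.SA
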