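import Pool.Agent.V11287.SA.Prod2
import Pool.Agent.V11287.SA.Tail

/-!
Almost every direction `(α, β)`: products, averages and tails along `(⌊α v_n⌋, ⌊β v_n⌋)`,
`v_(n+1) ≥ v_n^(1+κ)`.
-/

set_option autoImplicit false

namespace Pool.Agent.V11287.SA

open MeasureTheory Set Filter Finset Topology
open scoped ENNReal

/-- **Almost every direction.** -/
theorem bc2 (F : ℤ × ℤ → ℝ) (hF0 : ∀ t, 0 ≤ F t) {δ C R : ℝ} (hδ : 0 < δ) (hC : 0 ≤ C)
    (hR : C < R) (L M₀ : ℕ) (hL : 2 * (1 + δ) ≤ L * δ)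
    (hF : ∀ (U V : ℤ) (M : ℕ), M₀ ≤ M → |U| ≤ (M : ℤ) ^ L → |V| ≤ (M : ℤ) ^ L →
      ∑ t ∈ Finset.Ioc U (U + M) ×ˢ Finset.Ioc V (V + M), F t ≤ C * (M : ℝ) ^ 2)
    (v : ℕ → ℝ) (hv0 : ∀ n, 1 < v n) (hv : ∀ n, v n ^ (1 + δ) ≤ v (n + 1)) :
    ∀ᵐ x : ℝ × ℝ, ∀ᶠ N : ℕ in atTop, ∏ n ∈ range N, F (fl2 (v n) x) ≤ R ^ N := by
  have h0 : ∀ n, 0 < v n := fun n => one_pos.trans (hv0 n)
  have hv' := tendsto_v hδ hv0 hv
  obtain ⟨K, hK⟩ : ∃ K : ℝ, K = (2 * C + R) / 3 := ⟨_, rfl⟩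
  obtain ⟨R', hR'⟩ : ∃ R' : ℝ, R' = (C + 2 * R) / 3 := ⟨_, rfl⟩
  have hK0 : C < K := by rw [hK]; linarith
  have hKR : K < R' := by rw [hK, hR']; linarith
  have hR'R : R' < R := by rw [hR']; linarith
  have hKp : 0 < K := lt_of_le_of_lt hC hK0
  have hR'p : 0 < R' := hKp.trans hKR
  have hRp : 0 < R := hR'p.trans hR'R
  -- it suffices to treat squares
  have hIm : ∀ A : ℕ, MeasurableSet (Set.Icc (-(A : ℝ)) A ×ˢ Set.Icc (-(A : ℝ)) A) :=
    fun A => measurableSet_Icc.prod measurableSet_Icc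
  suffices h : ∀ A : ℕ, ∀ᵐ x ∂((volume : Measure (ℝ × ℝ)).restrict
      (Set.Icc (-(A : ℝ)) A ×ˢ Set.Icc (-(A : ℝ)) A)),
      ∀ᶠ N : ℕ in atTop, ∏ n ∈ range N, F (fl2 (v n) x) ≤ R ^ N by
    have h1 : ∀ A : ℕ, ∀ᵐ x : ℝ × ℝ, x ∈ Set.Icc (-(A : ℝ)) A ×ˢ Set.Icc (-(A : ℝ)) A →
        ∀ᶠ N : ℕ in atTop, ∏ n ∈ range N, F (fl2 (v n) x) ≤ R ^ N := by
      intro A
      exact (ae_restrict_iff' (hIm A)).1 (h A)
    filter_upwards [ae_all_iff.2 h1] with x hx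
    obtain ⟨A, hA⟩ := exists_nat_ge (max |x.1| |x.2|)
    exact hx A ⟨abs_le.1 ((le_max_left _ _).trans hA), abs_le.1 ((le_max_right _ _).trans hA)⟩
  intro A
  -- the growth of the quotients
  have hq : ∀ n, v (n + 1) ^ (δ / (1 + δ)) ≤ v (n + 1) / v n := by
    intro n
    have h1 : v n ≤ v (n + 1) ^ (1 / (1 + δ)) := by
      have := Real.rpow_le_rpow (Real.rpow_nonneg (h0 n).le _) (hv n)
        (show (0 : ℝ) ≤ 1 / (1 + δ) by positivity)
      rwa [← Real.rpow_mul (h0 n).le, mul_one_div_cancel (by positivity), Real.rpow_one] at this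
    rw [le_div_iff₀ (h0 n)]
    calc v (n + 1) ^ (δ / (1 + δ)) * v n
        ≤ v (n + 1) ^ (δ / (1 + δ)) * v (n + 1) ^ (1 / (1 + δ)) :=
          mul_le_mul_of_nonneg_left h1 (Real.rpow_nonneg (h0 _).le _)
      _ = v (n + 1) := by
          rw [← Real.rpow_add (h0 _)]
          have : δ / (1 + δ) + 1 / (1 + δ) = 1 := by field_simp; ring
          rw [this, Real.rpow_one]
  have hq' : Tendsto (fun n => v (n + 1) / v n) atTop atTop := by
    refine tendsto_atTop_mono hq ?_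
    exact (tendsto_rpow_atTop (show 0 < δ / (1 + δ) by positivity)).comp
      (hv'.comp (tendsto_add_atTop_nat 1))
  have hev : ∀ᶠ n in atTop, (A : ℝ) + 3 ≤ v (n + 1) ∧
      max (max 1 (M₀ : ℝ)) (8 * C / (K - C)) ≤ v (n + 1) / v n :=
    ((hv'.comp (tendsto_add_atTop_nat 1)).eventually_ge_atTop _).and
      (hq'.eventually_ge_atTop _)
  obtain ⟨n₀, hn₀⟩ := eventually_atTop.1 hev
  set w : ℕ → ℝ := fun n => v (n₀ + n) with hw
  set G : ℤ × ℤ → ℝ≥0∞ := fun t => ENNReal.ofReal (F t) with hG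
  have hmain := prod_le2' G (ENNReal.ofReal C) (ENNReal.ofReal K) A (Nat.cast_nonneg A) L M₀
    (by
      intro U V M hM hU hV
      rw [hG, ← ENNReal.ofReal_sum_of_nonneg (fun t _ => hF0 t), ← ENNReal.ofReal_natCast,
        ← ENNReal.ofReal_pow (Nat.cast_nonneg _), ← ENNReal.ofReal_mul hC]
      exact ENNReal.ofReal_le_ofReal (hF U V M hM hU hV))
    w (fun n => (hv0 _).le)
    (by
      intro n
      have h1 := (hn₀ (n₀ + n) (by omega)).2
      have h2 : w (n + 1) / w n = v (n₀ + n + 1) / v (n₀ + n) := rfl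
      rw [h2]
      obtain ⟨r, hr⟩ : ∃ r : ℝ, r = v (n₀ + n + 1) / v (n₀ + n) := ⟨_, rfl⟩
      rw [← hr] at h1 ⊢
      have h3 : 1 ≤ r := (le_max_left _ _).trans ((le_max_left _ _).trans h1)
      have h4 : 8 * C / (K - C) ≤ r := (le_max_right _ _).trans h1
      rw [div_le_iff₀ (by linarith)] at h4
      rw [← ENNReal.ofReal_pow (by linarith), ← ENNReal.ofReal_pow (by linarith),
        ← ENNReal.ofReal_mul hC, ← ENNReal.ofReal_mul hKp.le]
      apply ENNReal.ofReal_le_ofReal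
      nlinarith [mul_nonneg hC (sub_nonneg.2 h3), mul_le_mul_of_nonneg_right h4
        (show (0 : ℝ) ≤ r by linarith)])
    (by
      intro n
      have h1 := (hn₀ (n₀ + n) (by omega)).1
      have h2 : w (n + 1) = v (n₀ + n + 1) := rfl
      have h3 : w n = v (n₀ + n) := rfl
      rw [h2, h3]
      have h4 := hq (n₀ + n)
      set x := v (n₀ + n + 1) with hx
      have hx1 : 1 < x := hv0 _
      have hx0 : 0 < x := one_pos.trans hx1
      have h5 : x ^ (2 : ℝ) ≤ (x ^ (δ / (1 + δ))) ^ L := by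
        rw [← Real.rpow_natCast, ← Real.rpow_mul hx0.le]
        apply Real.rpow_le_rpow_of_exponent_le hx1.le
        rw [div_mul_eq_mul_div, le_div_iff₀ (by positivity)]
        linarith
      have h6 := pow_le_pow_left₀ (Real.rpow_nonneg hx0.le _) h4 L
      refine le_trans ?_ (h5.trans h6)
      rw [Real.rpow_two]
      nlinarith [Nat.cast_nonneg (α := ℝ) A])
    (fun n => (le_max_right _ _).trans ((le_max_left _ _).trans (hn₀ (n₀ + n) (by omega)).2))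
  -- Markov
  set μ : Measure (ℝ × ℝ) := (volume : Measure (ℝ × ℝ)).restrict
    (Set.Icc (-(A : ℝ)) A ×ˢ Set.Icc (-(A : ℝ)) A) with hμ
  set bad : ℕ → Set (ℝ × ℝ) := fun p => {x | ENNReal.ofReal (R' ^ p) ≤ pr2 G w 0 p x} with hbad
  have hmeas : ∀ p, μ (bad p) ≤ ENNReal.ofReal ((K / R') ^ p * (2 * A + 3) ^ 2) := by
    intro p
    have h1 := meas_ge_le_lintegral_div (μ := μ)
      (meas_pr2 G w 0 p).aemeasurable (ε := ENNReal.ofReal (R' ^ p))
      (by rw [Ne, ENNReal.ofReal_eq_zero, not_le]; positivity) ENNReal.ofReal_ne_top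
    refine h1.trans ?_
    refine (ENNReal.div_le_div_right (hmain p) _).trans (le_of_eq ?_)
    rw [← ENNReal.ofReal_pow hKp.le, ← ENNReal.ofReal_pow (by positivity),
      ← ENNReal.ofReal_mul (by positivity), ← ENNReal.ofReal_div_of_pos (by positivity)]
    congr 1
    rw [div_pow]
    ring
  have hsum : (∑' p, μ (bad p)) ≠ ∞ := by
    have hs : Summable (fun p : ℕ => (K / R') ^ p * (2 * (A : ℝ) + 3) ^ 2) :=
      (summable_geometric_of_lt_one (by positivity) ((div_lt_one hR'p).2 hKR)).mul_right _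
    refine ne_top_of_le_ne_top ?_ (ENNReal.tsum_le_tsum hmeas)
    rw [← ENNReal.ofReal_tsum_of_nonneg (fun p => by positivity) hs]
    exact ENNReal.ofReal_ne_top
  filter_upwards [ae_eventually_notMem hsum] with x hα
  -- conclusion
  have hpr : ∀ p, pr2 G w 0 p x = ENNReal.ofReal (∏ i ∈ range p, F (fl2 (v (n₀ + 1 + i)) x)) := by
    intro p
    unfold pr2
    rw [ENNReal.ofReal_prod_of_nonneg (fun i _ => hF0 _)]
    refine prod_congr rfl fun i _ => ?_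
    simp only [hG, hw]
    congr 4
    ring
  set c : ℝ := ∏ n ∈ range (n₀ + 1), F (fl2 (v n) x) with hc
  have hc0 : 0 ≤ c := prod_nonneg fun n _ => hF0 _
  have h7 : Tendsto (fun p : ℕ => c * (R' / R) ^ p) atTop (𝓝 0) := by
    have := (tendsto_pow_atTop_nhds_zero_of_lt_one (r := R' / R) (by positivity)
      ((div_lt_one hRp).2 hR'R)).const_mul c
    simpa using this
  have h8 := h7.eventually (gt_mem_nhds (show (0 : ℝ) < R ^ (n₀ + 1) by positivity))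
  have h9 : ∀ᶠ p : ℕ in atTop, ∏ n ∈ range (p + (n₀ + 1)), F (fl2 (v n) x) ≤
      R ^ (p + (n₀ + 1)) := by
    filter_upwards [hα, h8] with p hp1 hp2
    have h10 : ∏ i ∈ range p, F (fl2 (v (n₀ + 1 + i)) x) < R' ^ p := by
      have : ¬ ENNReal.ofReal (R' ^ p) ≤ pr2 G w 0 p x := hp1
      rw [hpr, ENNReal.ofReal_le_ofReal_iff (prod_nonneg fun i _ => hF0 _), not_le] at this
      exact this
    rw [add_comm p, prod_range_add, ← hc]
    calc c * ∏ i ∈ range p, F (fl2 (v (n₀ + 1 + i)) x) ≤ c * R' ^ p :=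
          mul_le_mul_of_nonneg_left h10.le hc0
      _ = (c * (R' / R) ^ p) * R ^ p := by
          rw [div_pow]
          field_simp
      _ ≤ R ^ (n₀ + 1) * R ^ p := mul_le_mul_of_nonneg_right hp2.le (by positivity)
      _ = R ^ (n₀ + 1 + p) := (pow_add _ _ _).symm
  rw [eventually_atTop] at h9 ⊢
  obtain ⟨p₀, hp₀⟩ := h9
  refine ⟨p₀ + (n₀ + 1), fun N hN => ?_⟩
  obtain ⟨q, rfl⟩ := Nat.exists_eq_add_of_le hN
  have := hp₀ (p₀ + q) (by omega)
  rwa [show p₀ + q + (n₀ + 1) = p₀ + (n₀ + 1) + q by omega] at this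

/-- averages: if the means of `2 ^ g` over squares are at most `C < R`, then the averages of
`g` are at most `log₂ R` -/
theorem avg2 (g : ℤ × ℤ → ℝ) {κ C R : ℝ} (hκ : 0 < κ) (hC : 0 ≤ C) (hR : C < R)
    (L M₀ : ℕ) (hL : 2 * (1 + κ) ≤ L * κ)
    (hF : ∀ (U V : ℤ) (M : ℕ), M₀ ≤ M → |U| ≤ (M : ℤ) ^ L → |V| ≤ (M : ℤ) ^ L →
      ∑ t ∈ Finset.Ioc U (U + M) ×ˢ Finset.Ioc V (V + M), (2 : ℝ) ^ (g t) ≤ C * (M : ℝ) ^ 2)
    (v : ℕ → ℝ) (hv0 : ∀ n, 1 < v n) (hv : ∀ n, v n ^ (1 + κ) ≤ v (n + 1)) :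
    ∀ᵐ x : ℝ × ℝ, ∀ᶠ N : ℕ in atTop,
      ∑ n ∈ range N, g (fl2 (v n) x) ≤ Real.logb 2 R * N := by
  have h := bc2 (fun t => (2 : ℝ) ^ (g t)) (fun t => Real.rpow_nonneg (by norm_num) _) hκ hC hR L
    M₀ hL hF v hv0 hv
  filter_upwards [h] with x hx
  filter_upwards [hx] with N hN
  have h1 : ∏ n ∈ range N, (2 : ℝ) ^ (g (fl2 (v n) x)) =
      (2 : ℝ) ^ (∑ n ∈ range N, g (fl2 (v n) x)) := by
    rw [Real.rpow_sum_of_pos (by norm_num)]
  rw [h1] at hN
  have h2 := Real.logb_le_logb_of_le (b := 2) (by norm_num) (by positivity) hN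
  rw [Real.logb_rpow (by norm_num) (by norm_num), Real.logb_pow] at h2
  linarith

/-- tails -/
theorem tail2 (B : ℤ × ℤ → Prop) [DecidablePred B] {κ ρ : ℝ} (hκ : 0 < κ) (hρ : 0 < ρ)
    (L M₀ : ℕ) (hL : 2 * (1 + κ) ≤ L * κ)
    (hB : ∀ (U V : ℤ) (M : ℕ), M₀ ≤ M → |U| ≤ (M : ℤ) ^ L → |V| ≤ (M : ℤ) ^ L →
      (((Finset.Ioc U (U + M) ×ˢ Finset.Ioc V (V + M)).filter B).card : ℝ) ≤ ρ * (M : ℝ) ^ 2)
    (v : ℕ → ℝ) (hv0 : ∀ n, 1 < v n) (hv : ∀ n, v n ^ (1 + κ) ≤ v (n + 1)) :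
    ∀ᵐ x : ℝ × ℝ, ∀ᶠ N : ℕ in atTop,
      (((range N).filter (fun n => B (fl2 (v n) x))).card : ℝ) ≤ 2 * ρ * N := by
  have hR : 1 + ρ < (2 : ℝ) ^ (2 * ρ) := by
    rw [Real.rpow_def_of_pos (by norm_num)]
    have h1 := Real.add_one_lt_exp (show Real.log 2 * (2 * ρ) ≠ 0 from
      mul_ne_zero (Real.log_pos (by norm_num)).ne' (by positivity))
    have h2 := Real.log_two_gt_d9
    nlinarith
  have h := avg2 (fun t => if B t then (1 : ℝ) else 0) hκ (by positivity) hR L M₀ hL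
    (by
      intro U V M hM hU hV
      have h1 : ∀ t, (2 : ℝ) ^ (if B t then (1 : ℝ) else 0) = 1 + (if B t then (1 : ℝ) else 0) := by
        intro t
        split_ifs <;> norm_num
      rw [sum_congr rfl (fun t _ => h1 t), sum_add_distrib, ← sum_filter, sum_const, sum_const,
        card_product, Int.card_Ioc, Int.card_Ioc, nsmul_eq_mul, nsmul_eq_mul, mul_one, mul_one,
        add_sub_cancel_left, add_sub_cancel_left, Int.toNat_natCast, Nat.cast_mul]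
      have := hB U V M hM hU hV
      nlinarith) v hv0 hv
  filter_upwards [h] with x hx
  filter_upwards [hx] with N hN
  rw [Real.logb_rpow (by norm_num) (by norm_num)] at hN
  rw [← sum_filter, sum_const, nsmul_eq_mul, mul_one] at hN
  exact hN

end Pool.Agent.V11287.SA
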