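import Mathlib

/-!
In squares of side `M` whose corners are bounded by `M ^ L` at most `4/5` of the pairs are not
coprime, for large `M`.
-/

set_option autoImplicit false

namespace Pool.Agent.V11287.SA

open Finset Filter

lemma mult_card (a : ℤ) (M : ℕ) {n : ℕ} (hn : 0 < n) :
    (((Ioc a (a + M)).filter (fun x => (n : ℤ) ∣ x)).card : ℝ) ≤ M / n + 1 := by
  have h := Int.Ioc_filter_dvd_card a (a + M) (r := (n : ℤ)) (by exact_mod_cast hn)
  have h1 : ((((Ioc a (a + M)).filter (fun x => (n : ℤ) ∣ x)).card : ℤ) : ℚ) ≤ M / n + 1 := by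
    rw [h]
    push_cast
    apply max_le
    · have l1 := Int.floor_le (((a : ℚ) + M) / n)
      have l2 := Int.lt_floor_add_one ((a : ℚ) / n)
      have e : ((a : ℚ) + M) / n = (a : ℚ) / n + (M : ℚ) / n := by ring
      rw [e] at l1
      rw [e]
      linarith
    · positivity
  have h2 : ((((Ioc a (a + M)).filter (fun x => (n : ℤ) ∣ x)).card : ℚ) : ℝ) ≤
      (((M : ℚ) / n + 1 : ℚ) : ℝ) := by exact_mod_cast h1
  push_cast at h2
  exact h2

lemma large_primes {M k : ℕ} (hM : 2 ≤ M) {u : ℕ} (hu : u ≠ 0) (huM : u ≤ M ^ k) :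
    (u.primeFactors.filter (fun p => M < p)).card ≤ k := by
  set S := u.primeFactors.filter (fun p => M < p) with hS
  have h1 : ∏ p ∈ S, p ∣ u :=
    (Finset.prod_dvd_prod_of_subset _ _ _ (filter_subset _ _)).trans (Nat.prod_primeFactors_dvd u)
  have h2 : ∏ p ∈ S, p ≤ u := Nat.le_of_dvd (Nat.pos_of_ne_zero hu) h1
  have h3 : M ^ S.card ≤ ∏ p ∈ S, p := by
    rw [← prod_const]
    exact prod_le_prod' fun p hp => (mem_filter.1 hp).2.le
  have h4 : M ^ S.card ≤ M ^ k := h3.trans (h2.trans huM)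
  exact (Nat.pow_le_pow_iff_right (by omega)).1 h4

lemma sum_sq (M : ℕ) : ∑ n ∈ Icc 2 M, (1 : ℝ) / (n : ℝ) ^ 2 ≤ 3 / 4 := by
  have key : ∀ M : ℕ, 2 ≤ M → ∑ n ∈ Icc 2 M, (1 : ℝ) / (n : ℝ) ^ 2 ≤ 3 / 4 - 1 / M := by
    intro M hM
    induction M, hM using Nat.le_induction with
    | base => norm_num
    | succ M hM ih =>
      rw [sum_Icc_succ_top (by omega)]
      have h0 : (2 : ℝ) ≤ M := by exact_mod_cast hM
      have h1 : (1 : ℝ) / ((M + 1 : ℕ) : ℝ) ^ 2 ≤ 1 / M - 1 / ((M + 1 : ℕ) : ℝ) := by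
        push_cast
        rw [div_sub_div _ _ (by positivity) (by positivity), div_le_div_iff₀ (by positivity)
          (by positivity)]
        nlinarith
      linarith
  rcases lt_or_ge M 2 with h | h
  · rw [Finset.Icc_eq_empty (by omega), sum_empty]; norm_num
  · have := key M h
    have h0 : (0 : ℝ) ≤ 1 / M := by positivity
    linarith

open Classical in
/-- **Pairs which are not coprime.** -/
theorem noncoprime (L : ℕ) : ∃ M₀ : ℕ, ∀ (U V : ℤ) (M : ℕ), M₀ ≤ M → |U| ≤ (M : ℤ) ^ L →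
    |V| ≤ (M : ℤ) ^ L → (((Ioc U (U + M) ×ˢ Ioc V (V + M)).filter
      (fun t : ℤ × ℤ => ¬ IsCoprime t.1 t.2)).card : ℝ) ≤ 4 / 5 * (M : ℝ) ^ 2 := by
  have hlog : ∀ᶠ M : ℕ in atTop, Real.log M ≤ (1 / 80 : ℝ) * M := by
    have h1 := (Real.isLittleO_log_id_atTop.bound (show (0 : ℝ) < 1 / 80 by norm_num))
    have h2 := tendsto_natCast_atTop_atTop (R := ℝ) |>.eventually h1
    filter_upwards [h2, eventually_ge_atTop 1] with M hM hM1
    have h3 : (1 : ℝ) ≤ M := by exact_mod_cast hM1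
    rw [Real.norm_of_nonneg (Real.log_nonneg h3)] at hM
    simpa [abs_of_nonneg (show (0 : ℝ) ≤ M by positivity)] using hM
  obtain ⟨M₁, hM₁⟩ := eventually_atTop.1 hlog
  refine ⟨max (max M₁ 2) (200 * (L + 4)), fun U V M hM hU hV => ?_⟩
  have hM1 : M₁ ≤ M := (le_max_left _ _).trans ((le_max_left _ _).trans hM)
  have hM2 : 2 ≤ M := (le_max_right _ _).trans ((le_max_left _ _).trans hM)
  have hM3 : 200 * (L + 4) ≤ M := (le_max_right _ _).trans hM
  set Q := Ioc U (U + M) with hQ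
  set W := Ioc V (V + M) with hW
  have hQc : Q.card = M := by rw [hQ, Int.card_Ioc]; simp
  have hWc : W.card = M := by rw [hW, Int.card_Ioc]; simp
  -- covering
  have hcov : (Q ×ˢ W).filter (fun t : ℤ × ℤ => ¬ IsCoprime t.1 t.2) ⊆
      (({0} : Finset ℤ) ×ˢ W) ∪
      ((Icc 2 M).biUnion fun n => (Q.filter (fun x => (n : ℤ) ∣ x)) ×ˢ
        (W.filter (fun x => (n : ℤ) ∣ x))) ∪
      ((Q.filter (fun x => x ≠ 0)).biUnion fun u =>
        (u.natAbs.primeFactors.filter (fun p => M < p)).biUnion fun p =>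
          ({u} : Finset ℤ) ×ˢ (W.filter (fun x => (p : ℤ) ∣ x))) := by
    rintro ⟨u, w⟩ ht
    rw [mem_filter, mem_product] at ht
    obtain ⟨⟨hu, hw⟩, hc⟩ := ht
    simp only at hu hw hc
    rw [mem_union, mem_union]
    by_cases h0 : u = 0
    · left; left
      rw [mem_product, h0]
      exact ⟨mem_singleton_self _, hw⟩
    · rw [Int.isCoprime_iff_gcd_eq_one] at hc
      obtain ⟨p, hp, hpd⟩ := Nat.exists_prime_and_dvd hc
      have hpu : (p : ℤ) ∣ u := Int.natCast_dvd.2 (hpd.trans (Int.gcd_dvd_natAbs_left _ _))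
      have hpw : (p : ℤ) ∣ w := Int.natCast_dvd.2 (hpd.trans (Int.gcd_dvd_natAbs_right _ _))
      by_cases hpM : p ≤ M
      · left; right
        rw [mem_biUnion]
        refine ⟨p, mem_Icc.2 ⟨hp.two_le, hpM⟩, ?_⟩
        rw [mem_product, mem_filter, mem_filter]
        exact ⟨⟨hu, hpu⟩, hw, hpw⟩
      · right
        rw [mem_biUnion]
        refine ⟨u, mem_filter.2 ⟨hu, h0⟩, ?_⟩
        rw [mem_biUnion]
        refine ⟨p, ?_, ?_⟩
        · rw [mem_filter, Nat.mem_primeFactors]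
          exact ⟨⟨hp, Int.natCast_dvd.1 hpu, Int.natAbs_ne_zero.2 h0⟩, by omega⟩
        · rw [mem_product, mem_filter]
          exact ⟨mem_singleton_self _, hw, hpw⟩
  have hMr : (2 : ℝ) ≤ M := by exact_mod_cast hM2
  -- the three cardinalities
  have c1 : ((({0} : Finset ℤ) ×ˢ W).card : ℝ) ≤ M := by
    rw [card_product, card_singleton, hWc, one_mul]
  have c2 : ((((Icc 2 M).biUnion fun n => (Q.filter (fun x => (n : ℤ) ∣ x)) ×ˢ
        (W.filter (fun x => (n : ℤ) ∣ x))).card : ℕ) : ℝ) ≤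
      3 / 4 * (M : ℝ) ^ 2 + 2 * M * (1 + Real.log M) + M := by
    have h1 : ((((Icc 2 M).biUnion fun n => (Q.filter (fun x => (n : ℤ) ∣ x)) ×ˢ
        (W.filter (fun x => (n : ℤ) ∣ x))).card : ℕ) : ℝ) ≤
        ∑ n ∈ Icc 2 M, ((M : ℝ) / n + 1) ^ 2 := by
      refine (Nat.cast_le.2 card_biUnion_le).trans ?_
      push_cast
      refine sum_le_sum fun n hn => ?_
      rw [card_product, Nat.cast_mul, sq]
      have hn0 : 0 < n := by
        have := (mem_Icc.1 hn).1
        omega
      exact mul_le_mul (mult_card U M hn0) (mult_card V M hn0) (by positivity) (by positivity)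
    refine h1.trans ?_
    have h2 : ∀ n ∈ Icc 2 M, ((M : ℝ) / n + 1) ^ 2 =
        (M : ℝ) ^ 2 * (1 / (n : ℝ) ^ 2) + 2 * M * (1 / (n : ℝ)) + 1 := by
      intro n hn
      have hn0 : (n : ℝ) ≠ 0 := by
        have := (mem_Icc.1 hn).1
        positivity
      field_simp
      ring
    rw [sum_congr rfl h2, sum_add_distrib, sum_add_distrib, ← mul_sum, ← mul_sum, sum_const,
      nsmul_eq_mul, mul_one]
    have h3 := sum_sq M
    have h4 : ∑ n ∈ Icc 2 M, (1 : ℝ) / (n : ℝ) ≤ 1 + Real.log M := by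
      have h5 := harmonic_le_one_add_log M
      have h6 : ((harmonic M : ℚ) : ℝ) = ∑ n ∈ Icc 1 M, (1 : ℝ) / (n : ℝ) := by
        rw [harmonic_eq_sum_Icc]
        push_cast
        refine sum_congr rfl fun n _ => ?_
        rw [one_div]
      rw [h6] at h5
      refine le_trans ?_ h5
      refine sum_le_sum_of_subset_of_nonneg (Icc_subset_Icc (by norm_num) le_rfl) ?_
      intro n _ _
      positivity
    have h7 : ((Icc 2 M).card : ℝ) ≤ M := by
      rw [Nat.card_Icc]
      exact_mod_cast (by omega : M + 1 - 2 ≤ M)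
    nlinarith [mul_le_mul_of_nonneg_left h3 (show (0 : ℝ) ≤ (M : ℝ) ^ 2 by positivity),
      mul_le_mul_of_nonneg_left h4 (show (0 : ℝ) ≤ 2 * (M : ℝ) by positivity)]
  have c3 : ((((Q.filter (fun x => x ≠ 0)).biUnion fun u =>
        (u.natAbs.primeFactors.filter (fun p => M < p)).biUnion fun p =>
          ({u} : Finset ℤ) ×ˢ (W.filter (fun x => (p : ℤ) ∣ x))).card : ℕ) : ℝ) ≤
      2 * (L + 2) * M := by
    have h1 : ∀ u ∈ Q.filter (fun x => x ≠ 0), (((((u.natAbs.primeFactors.filter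
        (fun p => M < p)).biUnion fun p => ({u} : Finset ℤ) ×ˢ
          (W.filter (fun x => (p : ℤ) ∣ x))).card : ℕ)) : ℝ) ≤ 2 * (L + 2) := by
      intro u hu
      rw [mem_filter] at hu
      have hub : u.natAbs ≤ M ^ (L + 2) := by
        have h2 := mem_Ioc.1 hu.1
        have h3 : |u| ≤ (M : ℤ) ^ L + M := by
          rw [abs_le] at hU ⊢
          constructor <;> linarith [hU.1, hU.2, h2.1, h2.2, (Nat.cast_nonneg M : (0 : ℤ) ≤ M)]
        have h4 : (M : ℤ) ^ L + M ≤ (M : ℤ) ^ (L + 2) := by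
          have hz : (2 : ℤ) ≤ M := by exact_mod_cast hM2
          have h5 : (1 : ℤ) ≤ (M : ℤ) ^ L := one_le_pow₀ (by linarith)
          rw [pow_add]
          nlinarith [mul_le_mul h5 hz (by norm_num) (by linarith : (0 : ℤ) ≤ (M : ℤ) ^ L)]
        have h5 : (u.natAbs : ℤ) ≤ ((M ^ (L + 2) : ℕ) : ℤ) := by
          rw [Int.natCast_natAbs]
          push_cast
          exact h3.trans h4
        exact_mod_cast h5
      have h6 := large_primes hM2 (Int.natAbs_ne_zero.2 hu.2) hub
      refine (Nat.cast_le.2 card_biUnion_le).trans ?_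
      push_cast
      refine (sum_le_card_nsmul _ _ 2 ?_).trans ?_
      · intro p hp
        rw [card_product, card_singleton, one_mul]
        have hpM := (mem_filter.1 hp).2
        refine (mult_card V M (by omega)).trans ?_
        have hp0 : (0 : ℝ) < p := by exact_mod_cast (by omega : 0 < p)
        have : (M : ℝ) / p ≤ 1 := by
          rw [div_le_one hp0]
          exact_mod_cast hpM.le
        linarith
      · rw [nsmul_eq_mul]
        have : (((u.natAbs.primeFactors.filter (fun p => M < p)).card : ℕ) : ℝ) ≤ L + 2 := by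
          exact_mod_cast h6
        linarith
    refine (Nat.cast_le.2 card_biUnion_le).trans ?_
    push_cast
    refine (sum_le_card_nsmul _ _ _ h1).trans ?_
    rw [nsmul_eq_mul]
    have h2 : (((Q.filter (fun x => x ≠ 0)).card : ℕ) : ℝ) ≤ M := by
      rw [← hQc]
      exact_mod_cast card_filter_le _ _
    have h3 : (0 : ℝ) ≤ 2 * ((L : ℝ) + 2) := by positivity
    nlinarith [mul_le_mul_of_nonneg_right h2 h3]
  have htot := card_le_card hcov
  have htot2 := htot.trans ((card_union_le _ _).trans (Nat.add_le_add_right (card_union_le _ _) _))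
  have htot3 : (((Q ×ˢ W).filter (fun t : ℤ × ℤ => ¬ IsCoprime t.1 t.2)).card : ℝ) ≤
      M + (3 / 4 * (M : ℝ) ^ 2 + 2 * M * (1 + Real.log M) + M) + 2 * (L + 2) * M := by
    refine (Nat.cast_le.2 htot2).trans ?_
    push_cast
    exact add_le_add (add_le_add c1 c2) c3
  refine htot3.trans ?_
  have hl := hM₁ M hM1
  have h8 : (200 : ℝ) * (L + 4) ≤ M := by exact_mod_cast hM3
  have h9 : (0 : ℝ) ≤ M := by positivity
  nlinarith [mul_le_mul_of_nonneg_right hl h9, mul_le_mul_of_nonneg_right h8 h9]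

end Pool.Agent.V11287.SA
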