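import Pool.Agent.V11287.SA.Prod

/-!
The almost sure bound for the products along sequences with `v_(n+1) ≥ v_n^(1+δ)`.
-/

set_option autoImplicit false

namespace Pool.Agent.V11287.SA

open MeasureTheory Set Filter Finset Topology
open scoped ENNReal

lemma tendsto_v {δ : ℝ} (hδ : 0 < δ) {v : ℕ → ℝ} (hv0 : ∀ n, 1 < v n)
    (hv : ∀ n, v n ^ (1 + δ) ≤ v (n + 1)) : Tendsto v atTop atTop := by
  have h0 : ∀ n, 0 < v n := fun n => one_pos.trans (hv0 n)
  have hl : ∀ n, (1 + δ) ^ n * Real.log (v 0) ≤ Real.log (v n) := by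
    intro n
    induction n with
    | zero => simp
    | succ n ih =>
      have h1 : (1 + δ) * Real.log (v n) ≤ Real.log (v (n + 1)) := by
        rw [← Real.log_rpow (h0 n)]
        exact Real.log_le_log (Real.rpow_pos_of_pos (h0 n) _) (hv n)
      calc (1 + δ) ^ (n + 1) * Real.log (v 0) = (1 + δ) * ((1 + δ) ^ n * Real.log (v 0)) := by ring
        _ ≤ (1 + δ) * Real.log (v n) := mul_le_mul_of_nonneg_left ih (by linarith)
        _ ≤ _ := h1
  have h2 : Tendsto (fun n : ℕ => (1 + δ) ^ n * Real.log (v 0)) atTop atTop :=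
    (tendsto_pow_atTop_atTop_of_one_lt (by linarith)).atTop_mul_const (Real.log_pos (hv0 0))
  have h3 := tendsto_atTop_mono hl h2
  have h4 := Real.tendsto_exp_atTop.comp h3
  refine h4.congr fun n => ?_
  simp only [Function.comp]
  exact Real.exp_log (h0 n)

/-- **Almost every real number.** -/
theorem bc (F : ℤ → ℝ) (hF0 : ∀ t, 0 ≤ F t) {δ C R : ℝ} (hδ : 0 < δ) (hC : 0 ≤ C) (hR : C < R)
    (L : ℕ) (hL : 2 * (1 + δ) ≤ L * δ)
    (hF : ∀ (N : ℤ) (M : ℕ), 1 ≤ M → |N| ≤ (M : ℤ) ^ L → ∑ t ∈ Finset.Ioc N (N + M), F t ≤ C * M)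
    (v : ℕ → ℝ) (hv0 : ∀ n, 1 < v n) (hv : ∀ n, v n ^ (1 + δ) ≤ v (n + 1)) :
    ∀ᵐ α : ℝ, ∀ᶠ N : ℕ in atTop, ∏ n ∈ range N, F ⌊α * v n⌋ ≤ R ^ N := by
  have h0 : ∀ n, 0 < v n := fun n => one_pos.trans (hv0 n)
  have hv' := tendsto_v hδ hv0 hv
  obtain ⟨K, hK⟩ : ∃ K : ℝ, K = (2 * C + R) / 3 := ⟨_, rfl⟩
  obtain ⟨R', hR'⟩ : ∃ R' : ℝ, R' = (C + 2 * R) / 3 := ⟨_, rfl⟩
  have hK0 : C < K := by rw [hK]; linarith
  have hKR : K < R' := by rw [hK, hR']; linarith
  have hR'R : R' < R := by rw [hR']; linarith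
  have hKp : 0 < K := lt_of_le_of_lt hC hK0
  have hR'p : 0 < R' := hKp.trans hKR
  have hRp : 0 < R := hR'p.trans hR'R
  -- it suffices to treat bounded intervals
  suffices h : ∀ A : ℕ, ∀ᵐ α ∂(volume.restrict (Set.Icc (-(A : ℝ)) A)),
      ∀ᶠ N : ℕ in atTop, ∏ n ∈ range N, F ⌊α * v n⌋ ≤ R ^ N by
    have h1 : ∀ A : ℕ, ∀ᵐ α : ℝ, α ∈ Set.Icc (-(A : ℝ)) A →
        ∀ᶠ N : ℕ in atTop, ∏ n ∈ range N, F ⌊α * v n⌋ ≤ R ^ N := by
      intro A
      exact (ae_restrict_iff' measurableSet_Icc).1 (h A)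
    filter_upwards [ae_all_iff.2 h1] with α hα
    obtain ⟨A, hA⟩ := exists_nat_ge |α|
    exact hα A (abs_le.1 hA)
  intro A
  -- the growth of the quotients
  have hq : ∀ n, v (n + 1) ^ (δ / (1 + δ)) ≤ v (n + 1) / v n := by
    intro n
    have h1 : v n ≤ v (n + 1) ^ (1 / (1 + δ)) := by
      have := Real.rpow_le_rpow (Real.rpow_nonneg (h0 n).le _) (hv n)
        (show (0 : ℝ) ≤ 1 / (1 + δ) by positivity)
      rwa [← Real.rpow_mul (h0 n).le, mul_one_div_cancel (by positivity), Real.rpow_one] at this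
    rw [le_div_iff₀ (h0 n)]
    calc v (n + 1) ^ (δ / (1 + δ)) * v n
        ≤ v (n + 1) ^ (δ / (1 + δ)) * v (n + 1) ^ (1 / (1 + δ)) :=
          mul_le_mul_of_nonneg_left h1 (Real.rpow_nonneg (h0 _).le _)
      _ = v (n + 1) := by
          rw [← Real.rpow_add (h0 _)]
          have : δ / (1 + δ) + 1 / (1 + δ) = 1 := by field_simp; ring
          rw [this, Real.rpow_one]
  have hq' : Tendsto (fun n => v (n + 1) / v n) atTop atTop := by
    refine tendsto_atTop_mono hq ?_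
    exact (tendsto_rpow_atTop (show 0 < δ / (1 + δ) by positivity)).comp
      (hv'.comp (tendsto_add_atTop_nat 1))
  have hev : ∀ᶠ n in atTop, (A : ℝ) + 3 ≤ v (n + 1) ∧ 2 * C / (K - C) ≤ v (n + 1) / v n :=
    ((hv'.comp (tendsto_add_atTop_nat 1)).eventually_ge_atTop _).and
      (hq'.eventually_ge_atTop _)
  obtain ⟨n₀, hn₀⟩ := eventually_atTop.1 hev
  set w : ℕ → ℝ := fun n => v (n₀ + n) with hw
  set G : ℤ → ℝ≥0∞ := fun t => ENNReal.ofReal (F t) with hG
  have hmain := prod_le' G (ENNReal.ofReal C) (ENNReal.ofReal K) A (Nat.cast_nonneg A) L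
    (by
      intro N M hM hN
      rw [hG, ← ENNReal.ofReal_sum_of_nonneg (fun t _ => hF0 t), ← ENNReal.ofReal_natCast,
        ← ENNReal.ofReal_mul hC]
      exact ENNReal.ofReal_le_ofReal (hF N M hM hN))
    w (fun n => (hv0 _).le)
    (by
      intro n
      rw [← ENNReal.ofReal_mul hC, ← ENNReal.ofReal_mul hKp.le]
      apply ENNReal.ofReal_le_ofReal
      have h1 := (hn₀ (n₀ + n) (by omega)).2
      rw [div_le_iff₀ (by linarith)] at h1
      have h2 : w (n + 1) / w n = v (n₀ + n + 1) / v (n₀ + n) := rfl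
      rw [h2]
      nlinarith)
    (by
      intro n
      have h1 := (hn₀ (n₀ + n) (by omega)).1
      have h2 : w (n + 1) = v (n₀ + n + 1) := rfl
      have h3 : w n = v (n₀ + n) := rfl
      rw [h2, h3]
      have h4 := hq (n₀ + n)
      set x := v (n₀ + n + 1) with hx
      have hx1 : 1 < x := hv0 _
      have hx0 : 0 < x := one_pos.trans hx1
      have h5 : x ^ (2 : ℝ) ≤ (x ^ (δ / (1 + δ))) ^ L := by
        rw [← Real.rpow_natCast, ← Real.rpow_mul hx0.le]
        apply Real.rpow_le_rpow_of_exponent_le hx1.le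
        rw [div_mul_eq_mul_div, le_div_iff₀ (by positivity)]
        linarith
      have h6 := pow_le_pow_left₀ (Real.rpow_nonneg hx0.le _) h4 L
      refine le_trans ?_ (h5.trans h6)
      rw [Real.rpow_two]
      nlinarith [Nat.cast_nonneg (α := ℝ) A])
  -- Markov
  set bad : ℕ → Set ℝ := fun p => {α | ENNReal.ofReal (R' ^ p) ≤ pr G w 0 p α} with hbad
  have hmeas : ∀ p, volume.restrict (Set.Icc (-(A : ℝ)) A) (bad p) ≤
      ENNReal.ofReal ((K / R') ^ p * (2 * A + 3)) := by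
    intro p
    have h1 := meas_ge_le_lintegral_div (μ := volume.restrict (Set.Icc (-(A : ℝ)) A))
      (meas_pr G w 0 p).aemeasurable (ε := ENNReal.ofReal (R' ^ p))
      (by rw [Ne, ENNReal.ofReal_eq_zero, not_le]; positivity) ENNReal.ofReal_ne_top
    refine h1.trans ?_
    refine (ENNReal.div_le_div_right (hmain p) _).trans (le_of_eq ?_)
    rw [← ENNReal.ofReal_pow hKp.le, ← ENNReal.ofReal_mul (by positivity),
      ← ENNReal.ofReal_div_of_pos (by positivity)]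
    congr 1
    rw [div_pow]
    ring
  have hsum : (∑' p, volume.restrict (Set.Icc (-(A : ℝ)) A) (bad p)) ≠ ∞ := by
    have hs : Summable (fun p : ℕ => (K / R') ^ p * (2 * (A : ℝ) + 3)) :=
      (summable_geometric_of_lt_one (by positivity) ((div_lt_one hR'p).2 hKR)).mul_right _
    refine ne_top_of_le_ne_top ?_ (ENNReal.tsum_le_tsum hmeas)
    rw [← ENNReal.ofReal_tsum_of_nonneg (fun p => by positivity) hs]
    exact ENNReal.ofReal_ne_top
  filter_upwards [ae_eventually_notMem hsum] with α hα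
  -- conclusion
  have hpr : ∀ p, pr G w 0 p α = ENNReal.ofReal (∏ i ∈ range p, F ⌊α * v (n₀ + 1 + i)⌋) := by
    intro p
    unfold pr
    rw [ENNReal.ofReal_prod_of_nonneg (fun i _ => hF0 _)]
    refine prod_congr rfl fun i _ => ?_
    simp only [hG, hw]
    congr 4
    ring_nf
  set c : ℝ := ∏ n ∈ range (n₀ + 1), F ⌊α * v n⌋ with hc
  have hc0 : 0 ≤ c := prod_nonneg fun n _ => hF0 _
  have h7 : Tendsto (fun p : ℕ => c * (R' / R) ^ p) atTop (𝓝 0) := by
    have := (tendsto_pow_atTop_nhds_zero_of_lt_one (r := R' / R) (by positivity)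
      ((div_lt_one hRp).2 hR'R)).const_mul c
    simpa using this
  have h8 := h7.eventually (gt_mem_nhds (show (0 : ℝ) < R ^ (n₀ + 1) by positivity))
  have h9 : ∀ᶠ p : ℕ in atTop, ∏ n ∈ range (p + (n₀ + 1)), F ⌊α * v n⌋ ≤ R ^ (p + (n₀ + 1)) := by
    filter_upwards [hα, h8] with p hp1 hp2
    have h10 : ∏ i ∈ range p, F ⌊α * v (n₀ + 1 + i)⌋ < R' ^ p := by
      have : ¬ ENNReal.ofReal (R' ^ p) ≤ pr G w 0 p α := hp1
      rw [hpr, ENNReal.ofReal_le_ofReal_iff (prod_nonneg fun i _ => hF0 _), not_le] at this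
      exact this
    rw [add_comm p, prod_range_add, ← hc]
    calc c * ∏ i ∈ range p, F ⌊α * v (n₀ + 1 + i)⌋ ≤ c * R' ^ p :=
          mul_le_mul_of_nonneg_left h10.le hc0
      _ = (c * (R' / R) ^ p) * R ^ p := by
          rw [div_pow]
          field_simp
      _ ≤ R ^ (n₀ + 1) * R ^ p := mul_le_mul_of_nonneg_right hp2.le (by positivity)
      _ = R ^ (n₀ + 1 + p) := (pow_add _ _ _).symm
  rw [eventually_atTop] at h9 ⊢
  obtain ⟨p₀, hp₀⟩ := h9
  refine ⟨p₀ + (n₀ + 1), fun N hN => ?_⟩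
  obtain ⟨q, rfl⟩ := Nat.exists_eq_add_of_le hN
  have := hp₀ (p₀ + q) (by omega)
  rwa [show p₀ + q + (n₀ + 1) = p₀ + (n₀ + 1) + q by omega] at this

end Pool.Agent.V11287.SA
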