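import Mathlib

/-!
Products of values of a function with bounded means in short intervals at the integers
`⌊α v_n⌋`, `v_n` growing at least like `v_(n+1) ≥ v_n^(1+δ)`.
-/

set_option autoImplicit false

namespace Pool.Agent.V11287.SA

open MeasureTheory Set Filter Finset Topology
open scoped ENNReal

/-- the `α` with `⌊α v⌋ = t` -/
def cell (v : ℝ) (t : ℤ) : Set ℝ := {α | ⌊α * v⌋ = t}

lemma cell_eq {v : ℝ} (hv : 0 < v) (t : ℤ) : cell v t = Set.Ico (t / v) ((t + 1) / v) := by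
  ext α
  unfold cell
  rw [Set.mem_setOf_eq, Int.floor_eq_iff, Set.mem_Ico, div_le_iff₀ hv, lt_div_iff₀ hv]

lemma meas_fl (v : ℝ) : Measurable (fun α : ℝ => ⌊α * v⌋) :=
  Int.measurable_floor.comp (measurable_id.mul_const v)

lemma meas_cell (v : ℝ) (t : ℤ) : MeasurableSet (cell v t) :=
  meas_fl v (measurableSet_singleton t)

lemma vol_cell {v : ℝ} (hv : 0 < v) (t : ℤ) : volume (cell v t) = ENNReal.ofReal (1 / v) := by
  rw [cell_eq hv, Real.volume_Ico]
  congr 1
  field_simp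
  ring

/-- the product of the values at `⌊α v_{n+1}⌋, …, ⌊α v_{n+p}⌋` -/
noncomputable def pr (F : ℤ → ℝ≥0∞) (v : ℕ → ℝ) (n p : ℕ) (α : ℝ) : ℝ≥0∞ :=
  ∏ i ∈ range p, F ⌊α * v (n + 1 + i)⌋

lemma meas_pr (F : ℤ → ℝ≥0∞) (v : ℕ → ℝ) (n p : ℕ) : Measurable (pr F v n p) := by
  unfold pr
  refine Finset.measurable_prod _ fun i _ => ?_
  exact (measurable_from_top (f := F)).comp (meas_fl _)

lemma pr_succ (F : ℤ → ℝ≥0∞) (v : ℕ → ℝ) (n p : ℕ) (α : ℝ) :
    pr F v n (p + 1) α = F ⌊α * v (n + 1)⌋ * pr F v (n + 1) p α := by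
  unfold pr
  rw [prod_range_succ', mul_comm]
  congr 1
  refine prod_congr rfl fun i _ => ?_
  congr 4
  ring

lemma cover {v w : ℝ} (hv : 0 < v) (hw : 0 < w) (t : ℤ) :
    cell v t ⊆ ⋃ s ∈ Finset.Icc ⌊(t : ℝ) / v * w⌋ ⌊((t : ℝ) + 1) / v * w⌋, cell w s := by
  intro α hα
  rw [cell_eq hv, Set.mem_Ico] at hα
  rw [Set.mem_iUnion₂]
  refine ⟨⌊α * w⌋, ?_, rfl⟩
  rw [Finset.mem_Icc]
  exact ⟨Int.floor_le_floor (mul_le_mul_of_nonneg_right hα.1 hw.le),
    Int.floor_le_floor (mul_le_mul_of_nonneg_right hα.2.le hw.le)⟩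

/-- **Product bound on a cell.** -/
theorem prod_le (F : ℤ → ℝ≥0∞) (C K : ℝ≥0∞) (A : ℝ) (hA : 0 ≤ A) (L : ℕ)
    (hF : ∀ (N : ℤ) (M : ℕ), 1 ≤ M → |N| ≤ (M : ℤ) ^ L → ∑ t ∈ Finset.Ioc N (N + M), F t ≤ C * M)
    (v : ℕ → ℝ) (hv1 : ∀ n, 1 ≤ v n)
    (hK : ∀ n, C * ENNReal.ofReal (v (n + 1) / v n + 2) ≤ K * ENNReal.ofReal (v (n + 1) / v n))
    (hL : ∀ n, (A + 1) * v (n + 1) + 2 ≤ (v (n + 1) / v n) ^ L) :
    ∀ (p n : ℕ) (t : ℤ), ∫⁻ α in cell (v n) t ∩ Set.Icc (-A) A, pr F v n p α ≤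
      K ^ p * ENNReal.ofReal (1 / v n) := by
  intro p
  induction p with
  | zero =>
    intro n t
    have h0 : 0 < v n := lt_of_lt_of_le one_pos (hv1 n)
    simp only [pr, range_zero, Finset.prod_empty, pow_zero, one_mul]
    rw [lintegral_one, Measure.restrict_apply_univ]
    exact (measure_mono Set.inter_subset_left).trans (vol_cell h0 t).le
  | succ p ih =>
    intro n t
    have h0 : 0 < v n := lt_of_lt_of_le one_pos (hv1 n)
    have h1 : 0 < v (n + 1) := lt_of_lt_of_le one_pos (hv1 (n + 1))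
    rcases Set.eq_empty_or_nonempty (cell (v n) t ∩ Set.Icc (-A) A) with he | ⟨α₀, ha1, ha2⟩
    · rw [he]; simp
    set r : ℝ := v (n + 1) / v n with hr
    have hr0 : 0 < r := div_pos h1 h0
    set lo : ℤ := ⌊(t : ℝ) / v n * v (n + 1)⌋ with hlo
    set hi : ℤ := ⌊((t : ℝ) + 1) / v n * v (n + 1)⌋ with hhi
    have e1 : (t : ℝ) / v n * v (n + 1) = t * r := by rw [hr]; ring
    have e2 : ((t : ℝ) + 1) / v n * v (n + 1) = t * r + r := by rw [hr]; ring
    have l1 := Int.floor_le ((t : ℝ) / v n * v (n + 1))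
    have l2 := Int.lt_floor_add_one ((t : ℝ) / v n * v (n + 1))
    have g1 := Int.floor_le (((t : ℝ) + 1) / v n * v (n + 1))
    have g2 := Int.lt_floor_add_one (((t : ℝ) + 1) / v n * v (n + 1))
    rw [← hlo, e1] at l1 l2
    rw [← hhi, e2] at g1 g2
    have hlohi : lo ≤ hi := by
      apply Int.floor_le_floor
      rw [e1, e2]; linarith
    obtain ⟨M, hM⟩ : ∃ M : ℕ, (M : ℤ) = hi - lo + 1 :=
      ⟨(hi - lo + 1).toNat, Int.toNat_of_nonneg (by omega)⟩
    have hM1 : 1 ≤ M := by omega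
    have hMr : (M : ℝ) = hi - lo + 1 := by exact_mod_cast hM
    have hMge : r ≤ M := by rw [hMr]; linarith
    have hMle : (M : ℝ) ≤ r + 2 := by rw [hMr]; linarith
    have hS : Finset.Icc lo hi = Finset.Ioc (lo - 1) (lo - 1 + M) := by
      ext s
      rw [Finset.mem_Icc, Finset.mem_Ioc]
      omega
    -- position
    have hpos : |lo - 1| ≤ (M : ℤ) ^ L := by
      rw [cell_eq h0, Set.mem_Ico] at ha1
      rw [Set.mem_Icc] at ha2
      have t1 : (t : ℝ) / v n ≤ A := ha1.1.trans ha2.2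
      have t2 : -A ≤ ((t : ℝ) + 1) / v n := ha2.1.trans ha1.2.le
      have t3 : (t : ℝ) * r ≤ A * v (n + 1) := by
        rw [← e1]; exact mul_le_mul_of_nonneg_right t1 h1.le
      have t4 : -(A * v (n + 1)) ≤ t * r + r := by
        rw [← e2, ← neg_mul]; exact mul_le_mul_of_nonneg_right t2 h1.le
      have t5 : r ≤ v (n + 1) := by
        rw [hr]; exact div_le_self h1.le (hv1 n)
      have h5 : |((lo - 1 : ℤ) : ℝ)| ≤ (M : ℝ) ^ L := by
        refine le_trans ?_ ((hL n).trans (pow_le_pow_left₀ hr0.le hMge L))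
        rw [abs_le]
        push_cast
        constructor
        · nlinarith
        · nlinarith
      have h6 : ((|lo - 1| : ℤ) : ℝ) ≤ (((M : ℤ) ^ L : ℤ) : ℝ) := by
        push_cast
        push_cast at h5
        exact h5
      exact_mod_cast h6
    have hsum := hF (lo - 1) M hM1 hpos
    -- the integral
    have hdisj : Set.PairwiseDisjoint (↑(Finset.Icc lo hi))
        (fun s : ℤ => cell (v (n + 1)) s ∩ Set.Icc (-A) A) := by
      intro a _ b _ hab
      rw [Function.onFun, Set.disjoint_left]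
      intro x hx hx'
      exact hab (hx.1.symm.trans hx'.1)
    calc ∫⁻ α in cell (v n) t ∩ Set.Icc (-A) A, pr F v n (p + 1) α
        ≤ ∫⁻ α in ⋃ s ∈ Finset.Icc lo hi, (cell (v (n + 1)) s ∩ Set.Icc (-A) A),
            pr F v n (p + 1) α := by
          refine lintegral_mono_set ?_
          intro α hα
          have := cover h0 h1 t hα.1
          rw [Set.mem_iUnion₂] at this ⊢
          obtain ⟨s, hs, hs'⟩ := this
          exact ⟨s, hs, hs', hα.2⟩
      _ = ∑ s ∈ Finset.Icc lo hi, ∫⁻ α in cell (v (n + 1)) s ∩ Set.Icc (-A) A,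
            pr F v n (p + 1) α :=
          lintegral_biUnion_finset hdisj (fun s _ => (meas_cell _ _).inter measurableSet_Icc) _
      _ ≤ ∑ s ∈ Finset.Icc lo hi, F s * (K ^ p * ENNReal.ofReal (1 / v (n + 1))) := by
          refine sum_le_sum fun s _ => ?_
          have e3 : ∫⁻ α in cell (v (n + 1)) s ∩ Set.Icc (-A) A, pr F v n (p + 1) α =
              ∫⁻ α in cell (v (n + 1)) s ∩ Set.Icc (-A) A, F s * pr F v (n + 1) p α := by
            refine setLIntegral_congr_fun ((meas_cell _ _).inter measurableSet_Icc) ?_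
            intro α hα
            have : ⌊α * v (n + 1)⌋ = s := hα.1
            simp only [pr_succ, this]
          rw [e3, lintegral_const_mul _ (meas_pr _ _ _ _)]
          exact mul_le_mul_right (ih (n + 1) s) _
      _ = (∑ s ∈ Finset.Icc lo hi, F s) * (K ^ p * ENNReal.ofReal (1 / v (n + 1))) := by
          rw [sum_mul]
      _ ≤ (C * ENNReal.ofReal (r + 2)) * (K ^ p * ENNReal.ofReal (1 / v (n + 1))) := by
          rw [hS]
          refine mul_le_mul_left ?_ _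
          refine hsum.trans (mul_le_mul_right ?_ _)
          rw [← ENNReal.ofReal_natCast]
          exact ENNReal.ofReal_le_ofReal hMle
      _ ≤ (K * ENNReal.ofReal r) * (K ^ p * ENNReal.ofReal (1 / v (n + 1))) :=
          mul_le_mul_left (hK n) _
      _ = K ^ (p + 1) * ENNReal.ofReal (1 / v n) := by
          have e4 : ENNReal.ofReal r * ENNReal.ofReal (1 / v (n + 1)) =
              ENNReal.ofReal (1 / v n) := by
            rw [← ENNReal.ofReal_mul hr0.le]
            congr 1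
            rw [hr]
            field_simp
          rw [pow_succ, ← e4]
          ring

/-- **Product bound on `[-A, A]`.** -/
theorem prod_le' (F : ℤ → ℝ≥0∞) (C K : ℝ≥0∞) (A : ℝ) (hA : 0 ≤ A) (L : ℕ)
    (hF : ∀ (N : ℤ) (M : ℕ), 1 ≤ M → |N| ≤ (M : ℤ) ^ L → ∑ t ∈ Finset.Ioc N (N + M), F t ≤ C * M)
    (v : ℕ → ℝ) (hv1 : ∀ n, 1 ≤ v n)
    (hK : ∀ n, C * ENNReal.ofReal (v (n + 1) / v n + 2) ≤ K * ENNReal.ofReal (v (n + 1) / v n))
    (hL : ∀ n, (A + 1) * v (n + 1) + 2 ≤ (v (n + 1) / v n) ^ L) (p : ℕ) :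
    ∫⁻ α in Set.Icc (-A) A, pr F v 0 p α ≤ K ^ p * ENNReal.ofReal (2 * A + 3) := by
  have h0 : 0 < v 0 := lt_of_lt_of_le one_pos (hv1 0)
  set S : Finset ℤ := Finset.Icc ⌊-A * v 0⌋ ⌊A * v 0⌋ with hS
  have hdisj : Set.PairwiseDisjoint (↑S)
      (fun s : ℤ => cell (v 0) s ∩ Set.Icc (-A) A) := by
    intro a _ b _ hab
    rw [Function.onFun, Set.disjoint_left]
    intro x hx hx'
    exact hab (hx.1.symm.trans hx'.1)
  calc ∫⁻ α in Set.Icc (-A) A, pr F v 0 p α
      ≤ ∫⁻ α in ⋃ s ∈ S, (cell (v 0) s ∩ Set.Icc (-A) A), pr F v 0 p α := by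
        refine lintegral_mono_set ?_
        intro α hα
        rw [Set.mem_iUnion₂]
        refine ⟨⌊α * v 0⌋, ?_, rfl, hα⟩
        rw [hS, Finset.mem_Icc]
        exact ⟨Int.floor_le_floor (mul_le_mul_of_nonneg_right hα.1 h0.le),
          Int.floor_le_floor (mul_le_mul_of_nonneg_right hα.2 h0.le)⟩
    _ = ∑ s ∈ S, ∫⁻ α in cell (v 0) s ∩ Set.Icc (-A) A, pr F v 0 p α :=
        lintegral_biUnion_finset hdisj (fun s _ => (meas_cell _ _).inter measurableSet_Icc) _
    _ ≤ ∑ s ∈ S, K ^ p * ENNReal.ofReal (1 / v 0) :=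
        sum_le_sum fun s _ => prod_le F C K A hA L hF v hv1 hK hL p 0 s
    _ = K ^ p * ((S.card : ℝ≥0∞) * ENNReal.ofReal (1 / v 0)) := by
        rw [sum_const, nsmul_eq_mul]; ring
    _ ≤ K ^ p * ENNReal.ofReal (2 * A + 3) := by
        refine mul_le_mul_right ?_ _
        rw [← ENNReal.ofReal_natCast, ← ENNReal.ofReal_mul (by positivity)]
        apply ENNReal.ofReal_le_ofReal
        have l1 := Int.lt_floor_add_one (-A * v 0)
        have g1 := Int.floor_le (A * v 0)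
        have hle : ⌊-A * v 0⌋ ≤ ⌊A * v 0⌋ :=
          Int.floor_le_floor (by nlinarith)
        have hc : (S.card : ℤ) = ⌊A * v 0⌋ + 1 - ⌊-A * v 0⌋ := by
          rw [hS, Int.card_Icc]
          exact Int.toNat_of_nonneg (by omega)
        have hc' : (S.card : ℝ) = ⌊A * v 0⌋ + 1 - ⌊-A * v 0⌋ := by exact_mod_cast hc
        have : (S.card : ℝ) ≤ (2 * A + 3) * v 0 := by
          rw [hc']
          nlinarith [hv1 0]
        rw [mul_one_div, div_le_iff₀ h0]
        exact this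

end Pool.Agent.V11287.SA
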