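import Pool.Agent.V11287.SA.BC

/-!
Two-dimensional version of `SA/Prod`: products of the values at `(⌊α v_n⌋, ⌊β v_n⌋)` of a function on
`ℤ × ℤ` with bounded means over squares.
-/

set_option autoImplicit false

namespace Pool.Agent.V11287.SA

open MeasureTheory Set Filter Finset Topology
open scoped ENNReal

/-- the `(α, β)` with `(⌊α v⌋, ⌊β v⌋) = t` -/
def cell2 (v : ℝ) (t : ℤ × ℤ) : Set (ℝ × ℝ) := cell v t.1 ×ˢ cell v t.2

/-- the integer vector `(⌊α v⌋, ⌊β v⌋)` -/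
noncomputable def fl2 (v : ℝ) (x : ℝ × ℝ) : ℤ × ℤ := (⌊x.1 * v⌋, ⌊x.2 * v⌋)

lemma mem_cell2 {v : ℝ} {t : ℤ × ℤ} {x : ℝ × ℝ} : x ∈ cell2 v t ↔ fl2 v x = t := by
  unfold cell2 fl2 cell
  rw [Set.mem_prod, Prod.ext_iff]
  rfl

lemma meas_cell2 (v : ℝ) (t : ℤ × ℤ) : MeasurableSet (cell2 v t) :=
  (meas_cell v t.1).prod (meas_cell v t.2)

lemma meas_fl2 (v : ℝ) : Measurable (fl2 v) :=
  ((meas_fl v).comp measurable_fst).prodMk ((meas_fl v).comp measurable_snd)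

lemma vol_cell2 {v : ℝ} (hv : 0 < v) (t : ℤ × ℤ) :
    volume (cell2 v t) = ENNReal.ofReal (1 / v) * ENNReal.ofReal (1 / v) := by
  unfold cell2
  rw [Measure.volume_eq_prod, Measure.prod_prod, vol_cell hv, vol_cell hv]

/-- the product of the values at `fl2 v_{n+1}, …, fl2 v_{n+p}` -/
noncomputable def pr2 (F : ℤ × ℤ → ℝ≥0∞) (v : ℕ → ℝ) (n p : ℕ) (x : ℝ × ℝ) : ℝ≥0∞ :=
  ∏ i ∈ range p, F (fl2 (v (n + 1 + i)) x)

lemma meas_pr2 (F : ℤ × ℤ → ℝ≥0∞) (v : ℕ → ℝ) (n p : ℕ) : Measurable (pr2 F v n p) := by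
  unfold pr2
  refine Finset.measurable_prod _ fun i _ => ?_
  exact (measurable_of_countable F).comp (meas_fl2 _)

lemma pr2_succ (F : ℤ × ℤ → ℝ≥0∞) (v : ℕ → ℝ) (n p : ℕ) (x : ℝ × ℝ) :
    pr2 F v n (p + 1) x = F (fl2 (v (n + 1)) x) * pr2 F v (n + 1) p x := by
  unfold pr2
  rw [prod_range_succ', mul_comm]
  congr 1
  refine prod_congr rfl fun i _ => ?_
  congr 3
  ring

lemma range_facts {v w A : ℝ} (hv : 1 ≤ v) (hw : 1 ≤ w) (L : ℕ)
    (hL : (A + 1) * w + 2 ≤ (w / v) ^ L) (t : ℤ) (α₀ : ℝ) (ha1 : α₀ ∈ cell v t)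
    (ha2 : α₀ ∈ Set.Icc (-A) A) :
    ∃ (lo : ℤ) (M : ℕ), 1 ≤ M ∧ w / v ≤ M ∧ (M : ℝ) ≤ w / v + 2 ∧
      (∀ α ∈ cell v t, ⌊α * w⌋ ∈ Finset.Ioc lo (lo + M)) ∧
      ((|lo| : ℤ) : ℝ) ≤ (w / v) ^ L := by
  have h0 : 0 < v := lt_of_lt_of_le one_pos hv
  have h1 : 0 < w := lt_of_lt_of_le one_pos hw
  set r : ℝ := w / v with hr
  have hr0 : 0 < r := div_pos h1 h0
  set lo : ℤ := ⌊(t : ℝ) / v * w⌋ with hlo
  set hi : ℤ := ⌊((t : ℝ) + 1) / v * w⌋ with hhi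
  have e1 : (t : ℝ) / v * w = t * r := by rw [hr]; ring
  have e2 : ((t : ℝ) + 1) / v * w = t * r + r := by rw [hr]; ring
  have l1 := Int.floor_le ((t : ℝ) / v * w)
  have l2 := Int.lt_floor_add_one ((t : ℝ) / v * w)
  have g1 := Int.floor_le (((t : ℝ) + 1) / v * w)
  have g2 := Int.lt_floor_add_one (((t : ℝ) + 1) / v * w)
  rw [← hlo, e1] at l1 l2
  rw [← hhi, e2] at g1 g2
  have hlohi : lo ≤ hi := by
    apply Int.floor_le_floor
    rw [e1, e2]; linarith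
  obtain ⟨M, hM⟩ : ∃ M : ℕ, (M : ℤ) = hi - lo + 1 :=
    ⟨(hi - lo + 1).toNat, Int.toNat_of_nonneg (by omega)⟩
  have hMr : (M : ℝ) = hi - lo + 1 := by exact_mod_cast hM
  refine ⟨lo - 1, M, by omega, by rw [hMr]; linarith, by rw [hMr]; linarith, ?_, ?_⟩
  · intro α hα
    have := cover h0 h1 t hα
    rw [Set.mem_iUnion₂] at this
    obtain ⟨s, hs, hs'⟩ := this
    have hs'' : ⌊α * w⌋ = s := hs'
    rw [hs'', Finset.mem_Ioc]
    rw [Finset.mem_Icc] at hs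
    omega
  · rw [cell_eq h0, Set.mem_Ico] at ha1
    rw [Set.mem_Icc] at ha2
    have t1 : (t : ℝ) / v ≤ A := ha1.1.trans ha2.2
    have t2 : -A ≤ ((t : ℝ) + 1) / v := ha2.1.trans ha1.2.le
    have t3 : (t : ℝ) * r ≤ A * w := by
      rw [← e1]; exact mul_le_mul_of_nonneg_right t1 h1.le
    have t4 : -(A * w) ≤ t * r + r := by
      rw [← e2, ← neg_mul]; exact mul_le_mul_of_nonneg_right t2 h1.le
    have t5 : r ≤ w := by
      rw [hr]; exact div_le_self h1.le hv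
    refine le_trans ?_ hL
    push_cast
    rw [abs_le]
    constructor
    · nlinarith
    · nlinarith

/-- **Product bound on a cell.** -/
theorem prod_le2 (F : ℤ × ℤ → ℝ≥0∞) (C K : ℝ≥0∞) (A : ℝ) (L M₀ : ℕ)
    (hF : ∀ (U V : ℤ) (M : ℕ), M₀ ≤ M → |U| ≤ (M : ℤ) ^ L → |V| ≤ (M : ℤ) ^ L →
      ∑ t ∈ Finset.Ioc U (U + M) ×ˢ Finset.Ioc V (V + M), F t ≤ C * (M : ℝ≥0∞) ^ 2)
    (v : ℕ → ℝ) (hv1 : ∀ n, 1 ≤ v n)
    (hK : ∀ n, C * ENNReal.ofReal (v (n + 1) / v n + 2) ^ 2 ≤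
      K * ENNReal.ofReal (v (n + 1) / v n) ^ 2)
    (hL : ∀ n, (A + 1) * v (n + 1) + 2 ≤ (v (n + 1) / v n) ^ L)
    (hM₀ : ∀ n, (M₀ : ℝ) ≤ v (n + 1) / v n) :
    ∀ (p n : ℕ) (t : ℤ × ℤ), ∫⁻ x in cell2 (v n) t ∩ (Set.Icc (-A) A ×ˢ Set.Icc (-A) A),
      pr2 F v n p x ≤ K ^ p * ENNReal.ofReal (1 / v n) ^ 2 := by
  intro p
  induction p with
  | zero =>
    intro n t
    have h0 : 0 < v n := lt_of_lt_of_le one_pos (hv1 n)
    simp only [pr2, range_zero, Finset.prod_empty, pow_zero, one_mul]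
    rw [lintegral_one, Measure.restrict_apply_univ, sq]
    exact (measure_mono Set.inter_subset_left).trans (vol_cell2 h0 t).le
  | succ p ih =>
    intro n t
    have h0 : 0 < v n := lt_of_lt_of_le one_pos (hv1 n)
    have h1 : 0 < v (n + 1) := lt_of_lt_of_le one_pos (hv1 (n + 1))
    set I : Set (ℝ × ℝ) := Set.Icc (-A) A ×ˢ Set.Icc (-A) A with hI
    have hIm : MeasurableSet I := measurableSet_Icc.prod measurableSet_Icc
    rcases Set.eq_empty_or_nonempty (cell2 (v n) t ∩ I) with he | ⟨x₀, hx1, hx2⟩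
    · rw [he]; simp
    obtain ⟨U, M1, m1, m2, m3, m4, m5⟩ := range_facts (hv1 n) (hv1 (n + 1)) L (hL n) t.1 x₀.1
      hx1.1 hx2.1
    obtain ⟨V, M2, k1, k2, k3, k4, k5⟩ := range_facts (hv1 n) (hv1 (n + 1)) L (hL n) t.2 x₀.2
      hx1.2 hx2.2
    set r : ℝ := v (n + 1) / v n with hr
    have hr0 : 0 < r := div_pos h1 h0
    set M : ℕ := max M1 M2 with hM
    have hM1 : M1 ≤ M := le_max_left _ _
    have hM2 : M2 ≤ M := le_max_right _ _
    have hMle : (M : ℝ) ≤ r + 2 := by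
      rw [hM, Nat.cast_max]; exact max_le m3 k3
    have hMge : r ≤ M := m2.trans (by exact_mod_cast hM1)
    have hpow : r ^ L ≤ (M : ℝ) ^ L := pow_le_pow_left₀ hr0.le hMge L
    have hU : |U| ≤ (M : ℤ) ^ L := by
      have := m5.trans hpow
      exact_mod_cast this
    have hV : |V| ≤ (M : ℤ) ^ L := by
      have := k5.trans hpow
      exact_mod_cast this
    have hsum := hF U V M (by exact_mod_cast (hM₀ n).trans hMge) hU hV
    set S : Finset (ℤ × ℤ) := Finset.Ioc U (U + M) ×ˢ Finset.Ioc V (V + M) with hS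
    have hdisj : Set.PairwiseDisjoint (↑S) (fun s : ℤ × ℤ => cell2 (v (n + 1)) s ∩ I) := by
      intro a _ b _ hab
      rw [Function.onFun, Set.disjoint_left]
      intro x hx hx'
      exact hab ((mem_cell2.1 hx.1).symm.trans (mem_cell2.1 hx'.1))
    calc ∫⁻ x in cell2 (v n) t ∩ I, pr2 F v n (p + 1) x
        ≤ ∫⁻ x in ⋃ s ∈ S, (cell2 (v (n + 1)) s ∩ I), pr2 F v n (p + 1) x := by
          refine lintegral_mono_set ?_
          intro x hx
          rw [Set.mem_iUnion₂]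
          refine ⟨fl2 (v (n + 1)) x, ?_, mem_cell2.2 rfl, hx.2⟩
          have a1 := m4 x.1 hx.1.1
          have a2 := k4 x.2 hx.1.2
          rw [Finset.mem_Ioc] at a1 a2
          rw [hS, Finset.mem_product, Finset.mem_Ioc, Finset.mem_Ioc]
          have b1 : (M1 : ℤ) ≤ M := by exact_mod_cast hM1
          have b2 : (M2 : ℤ) ≤ M := by exact_mod_cast hM2
          unfold fl2
          refine ⟨⟨a1.1, a1.2.trans (by omega)⟩, ⟨a2.1, a2.2.trans (by omega)⟩⟩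
      _ = ∑ s ∈ S, ∫⁻ x in cell2 (v (n + 1)) s ∩ I, pr2 F v n (p + 1) x :=
          lintegral_biUnion_finset hdisj (fun s _ => (meas_cell2 _ _).inter hIm) _
      _ ≤ ∑ s ∈ S, F s * (K ^ p * ENNReal.ofReal (1 / v (n + 1)) ^ 2) := by
          refine sum_le_sum fun s _ => ?_
          have e3 : ∫⁻ x in cell2 (v (n + 1)) s ∩ I, pr2 F v n (p + 1) x =
              ∫⁻ x in cell2 (v (n + 1)) s ∩ I, F s * pr2 F v (n + 1) p x := by
            refine setLIntegral_congr_fun ((meas_cell2 _ _).inter hIm) ?_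
            intro x hx
            have : fl2 (v (n + 1)) x = s := mem_cell2.1 hx.1
            simp only [pr2_succ, this]
          rw [e3, lintegral_const_mul _ (meas_pr2 _ _ _ _)]
          exact mul_le_mul_right (ih (n + 1) s) _
      _ = (∑ s ∈ S, F s) * (K ^ p * ENNReal.ofReal (1 / v (n + 1)) ^ 2) := by
          rw [sum_mul]
      _ ≤ (C * ENNReal.ofReal (r + 2) ^ 2) * (K ^ p * ENNReal.ofReal (1 / v (n + 1)) ^ 2) := by
          refine mul_le_mul_left ?_ _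
          refine hsum.trans (mul_le_mul_right ?_ _)
          rw [← ENNReal.ofReal_natCast]
          exact pow_le_pow_left₀ zero_le (ENNReal.ofReal_le_ofReal hMle) 2
      _ ≤ (K * ENNReal.ofReal r ^ 2) * (K ^ p * ENNReal.ofReal (1 / v (n + 1)) ^ 2) :=
          mul_le_mul_left (hK n) _
      _ = K ^ (p + 1) * ENNReal.ofReal (1 / v n) ^ 2 := by
          have e4 : ENNReal.ofReal r * ENNReal.ofReal (1 / v (n + 1)) =
              ENNReal.ofReal (1 / v n) := by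
            rw [← ENNReal.ofReal_mul hr0.le]
            congr 1
            rw [hr]
            field_simp
          rw [pow_succ, ← e4]
          ring

/-- **Product bound on the square `[-A, A]²`.** -/
theorem prod_le2' (F : ℤ × ℤ → ℝ≥0∞) (C K : ℝ≥0∞) (A : ℝ) (hA : 0 ≤ A) (L M₀ : ℕ)
    (hF : ∀ (U V : ℤ) (M : ℕ), M₀ ≤ M → |U| ≤ (M : ℤ) ^ L → |V| ≤ (M : ℤ) ^ L →
      ∑ t ∈ Finset.Ioc U (U + M) ×ˢ Finset.Ioc V (V + M), F t ≤ C * (M : ℝ≥0∞) ^ 2)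
    (v : ℕ → ℝ) (hv1 : ∀ n, 1 ≤ v n)
    (hK : ∀ n, C * ENNReal.ofReal (v (n + 1) / v n + 2) ^ 2 ≤
      K * ENNReal.ofReal (v (n + 1) / v n) ^ 2)
    (hL : ∀ n, (A + 1) * v (n + 1) + 2 ≤ (v (n + 1) / v n) ^ L)
    (hM₀ : ∀ n, (M₀ : ℝ) ≤ v (n + 1) / v n) (p : ℕ) :
    ∫⁻ x in Set.Icc (-A) A ×ˢ Set.Icc (-A) A, pr2 F v 0 p x ≤
      K ^ p * ENNReal.ofReal (2 * A + 3) ^ 2 := by
  have h0 : 0 < v 0 := lt_of_lt_of_le one_pos (hv1 0)
  set J : Finset ℤ := Finset.Icc ⌊-A * v 0⌋ ⌊A * v 0⌋ with hJ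
  set I : Set (ℝ × ℝ) := Set.Icc (-A) A ×ˢ Set.Icc (-A) A with hI
  have hIm : MeasurableSet I := measurableSet_Icc.prod measurableSet_Icc
  have hdisj : Set.PairwiseDisjoint (↑(J ×ˢ J)) (fun s : ℤ × ℤ => cell2 (v 0) s ∩ I) := by
    intro a _ b _ hab
    rw [Function.onFun, Set.disjoint_left]
    intro x hx hx'
    exact hab ((mem_cell2.1 hx.1).symm.trans (mem_cell2.1 hx'.1))
  have hcard : (J.card : ℝ) * (1 / v 0) ≤ 2 * A + 3 := by
    have l1 := Int.lt_floor_add_one (-A * v 0)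
    have g1 := Int.floor_le (A * v 0)
    have hle : ⌊-A * v 0⌋ ≤ ⌊A * v 0⌋ := Int.floor_le_floor (by nlinarith)
    have hc : (J.card : ℤ) = ⌊A * v 0⌋ + 1 - ⌊-A * v 0⌋ := by
      rw [hJ, Int.card_Icc]
      exact Int.toNat_of_nonneg (by omega)
    have hc' : (J.card : ℝ) = ⌊A * v 0⌋ + 1 - ⌊-A * v 0⌋ := by exact_mod_cast hc
    have : (J.card : ℝ) ≤ (2 * A + 3) * v 0 := by
      rw [hc']
      nlinarith [hv1 0]
    rw [mul_one_div, div_le_iff₀ h0]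
    exact this
  calc ∫⁻ x in I, pr2 F v 0 p x
      ≤ ∫⁻ x in ⋃ s ∈ J ×ˢ J, (cell2 (v 0) s ∩ I), pr2 F v 0 p x := by
        refine lintegral_mono_set ?_
        intro x hx
        rw [Set.mem_iUnion₂]
        refine ⟨fl2 (v 0) x, ?_, mem_cell2.2 rfl, hx⟩
        rw [Finset.mem_product, hJ, Finset.mem_Icc, Finset.mem_Icc]
        unfold fl2
        exact ⟨⟨Int.floor_le_floor (mul_le_mul_of_nonneg_right hx.1.1 h0.le),
          Int.floor_le_floor (mul_le_mul_of_nonneg_right hx.1.2 h0.le)⟩,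
          Int.floor_le_floor (mul_le_mul_of_nonneg_right hx.2.1 h0.le),
          Int.floor_le_floor (mul_le_mul_of_nonneg_right hx.2.2 h0.le)⟩
    _ = ∑ s ∈ J ×ˢ J, ∫⁻ x in cell2 (v 0) s ∩ I, pr2 F v 0 p x :=
        lintegral_biUnion_finset hdisj (fun s _ => (meas_cell2 _ _).inter hIm) _
    _ ≤ ∑ s ∈ J ×ˢ J, K ^ p * ENNReal.ofReal (1 / v 0) ^ 2 :=
        sum_le_sum fun s _ => prod_le2 F C K A L M₀ hF v hv1 hK hL hM₀ p 0 s
    _ = K ^ p * ((J.card : ℝ≥0∞) * ENNReal.ofReal (1 / v 0)) ^ 2 := by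
        rw [sum_const, nsmul_eq_mul, card_product, Nat.cast_mul]; ring
    _ ≤ K ^ p * ENNReal.ofReal (2 * A + 3) ^ 2 := by
        refine mul_le_mul_right ?_ _
        refine pow_le_pow_left₀ zero_le ?_ 2
        rw [← ENNReal.ofReal_natCast, ← ENNReal.ofReal_mul (by positivity)]
        exact ENNReal.ofReal_le_ofReal hcard

end Pool.Agent.V11287.SA
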